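import Pool.Agent.W516.MTP.Main
import Pool.Agent.W828.MTP.PT
import Pool.Agent.W410.MTZ.CL

/-!
# Homogeneous polynomial relations between periods
-/

set_option autoImplicit false
set_option linter.unusedSectionVars false

namespace Pool.Agent.W516.MTF2

open Matrix MvPolynomial Pool.Agent.W516.MTZ Pool.Agent.W516.MTH Pool.Agent.W516.MTP

variable {m X : Type} [Fintype m] [DecidableEq m] [Fintype X] [DecidableEq X]

/-- The homogeneous polynomial relations with rational coefficients between the periods; the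
weight of the entry in the column `j` is `wt j`. -/
def homRel (M : Motive m X) (p : Matrix m m ℂ) : Set (MvPolynomial (m × m) ℚ) :=
  {f | (∃ n, f.IsWeightedHomogeneous (fun k : m × m => M.wt k.2) n) ∧
    aeval (fun k : m × m => p k.1 k.2) f = 0}

theorem aeval_dg {M : Motive m X} {f : MvPolynomial (m × m) ℚ} {n : ℕ}
    (hn : f.IsWeightedHomogeneous (fun k : m × m => M.wt k.2) n) (g : (Matrix m m ℂ)ˣ) (μ : ℂˣ) :
    aeval (crd ((g * dg M μ : (Matrix m m ℂ)ˣ) : Matrix m m ℂ)) f =
      (μ : ℂ) ^ n * aeval (crd (g : Matrix m m ℂ)) f := by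
  rw [aeval_def, aeval_def, eval₂_eq', eval₂_eq', Finset.mul_sum]
  refine Finset.sum_congr rfl fun d hd => ?_
  have h5 := hn (mem_support_iff.1 hd)
  have h6 : ∏ i, crd ((g * dg M μ : (Matrix m m ℂ)ˣ) : Matrix m m ℂ) i ^ d i =
      (μ : ℂ) ^ n * ∏ i, crd (g : Matrix m m ℂ) i ^ d i := by
    have h7 : ∀ i, crd ((g * dg M μ : (Matrix m m ℂ)ˣ) : Matrix m m ℂ) i =
        (μ : ℂ) ^ M.wt i.2 * crd (g : Matrix m m ℂ) i := by
      intro i
      rw [crd, crd, Units.val_mul, dg_val, mul_diagonal, mul_comm]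
    simp only [h7, mul_pow]
    rw [Finset.prod_mul_distrib]
    congr 1
    rw [← h5, Finsupp.weight_apply, Finsupp.sum_fintype _ _ (fun i => by simp),
      ← Finset.prod_pow_eq_pow_sum]
    refine Finset.prod_congr rfl fun i _ => ?_
    rw [← pow_mul, smul_eq_mul, mul_comm]
  rw [h6]
  ring

/-- The homogeneous components of a polynomial which vanishes on the group vanish on it. -/
theorem comp_vanish {M : Motive m X} {f : MvPolynomial (m × m) ℚ}
    (hf : ∀ g ∈ M.gp, aeval (crd ((g : (Matrix m m ℂ)ˣ) : Matrix m m ℂ)) f = 0) (n : ℕ)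
    {g : (Matrix m m ℂ)ˣ} (hg : g ∈ M.gp) :
    aeval (crd (g : Matrix m m ℂ))
      (weightedHomogeneousComponent (fun k : m × m => M.wt k.2) n f) = 0 := by
  set w : m × m → ℕ := fun k => M.wt k.2 with hw
  have hfin := weightedHomogeneousComponent_finsupp (w := w) f
  set q : Polynomial ℂ := ∑ k ∈ hfin.toFinset, Polynomial.monomial k
    (aeval (crd (g : Matrix m m ℂ)) (weightedHomogeneousComponent w k f)) with hq
  have hroot : ∀ μ : ℂ, μ ≠ 0 → q.IsRoot μ := by
    intro μ hμ
    have h1 := hf (g * dg M (Units.mk0 μ hμ)) (Subgroup.mul_mem _ hg (dg_mem M _))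
    rw [← sum_weightedHomogeneousComponent w f, finsum_eq_sum _ hfin, map_sum] at h1
    rw [Polynomial.IsRoot, hq, Polynomial.eval_finsetSum, ← h1]
    refine Finset.sum_congr rfl fun k _ => ?_
    rw [Polynomial.eval_monomial,
      aeval_dg (weightedHomogeneousComponent_isWeightedHomogeneous (w := w) k f), Units.val_mk0]
    ring
  have hq0 : q = 0 := by
    apply Polynomial.eq_zero_of_infinite_isRoot
    refine Set.Infinite.mono (s := {0}ᶜ) (fun μ hμ => hroot μ hμ) ?_
    exact (Set.finite_singleton (0 : ℂ)).infinite_compl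
  by_cases hn : n ∈ hfin.toFinset
  · have h2 : q.coeff n = 0 := by rw [hq0, Polynomial.coeff_zero]
    rw [hq, Polynomial.finsetSum_coeff, Finset.sum_eq_single n] at h2
    · rwa [Polynomial.coeff_monomial, if_pos rfl] at h2
    · intro k _ hk
      rw [Polynomial.coeff_monomial, if_neg hk]
    · intro h
      exact absurd hn h
  · have h2 : weightedHomogeneousComponent w n f = 0 := by
      by_contra h
      exact hn (hfin.mem_toFinset.2 h)
    rw [h2, map_zero]

theorem main_f {M : Motive m X} {p : (Matrix m m ℂ)ˣ} (hp : p ∈ M.gp)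
    (hdeg : ∀ x, Odd (M.deg x) ∧ 3 ≤ M.deg x) (hinj : Function.Injective M.deg)
    (hpi : (p : Matrix m m ℂ) M.t M.t = 2 * Real.pi * Complex.I)
    (hzeta : ∀ x, (p : Matrix m m ℂ) M.o (M.s x) = riemannZeta (M.deg x)) :
    (∀ g ∈ M.gp, Vanish (homRel M (p : Matrix m m ℂ))
      ((g : (Matrix m m ℂ)ˣ) : Matrix m m ℂ)) ↔
    ∀ B : (Matrix m m ℂ)ˣ, Vanish (homRel M (p : Matrix m m ℂ)) (B : Matrix m m ℂ) →
      Vanish (homRel M (p : Matrix m m ℂ)) ((B : Matrix m m ℂ) *
        (((p⁻¹ : (Matrix m m ℂ)ˣ) : Matrix m m ℂ) * (p : Matrix m m ℂ).map (starRingEnd ℂ))) := by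
  have hs_val : ((p⁻¹ * sg cj p : (Matrix m m ℂ)ˣ) : Matrix m m ℂ) =
      ((p⁻¹ : (Matrix m m ℂ)ˣ) : Matrix m m ℂ) * (p : Matrix m m ℂ).map (starRingEnd ℂ) := by
    rw [Units.val_mul]
    rfl
  constructor
  · intro h B hB f hf
    obtain ⟨G', hG'⟩ := W410.MTZ.T_CL m M.gp fun σ g hg g' hg' => by
      have h1 : g' = sg σ g := Units.ext hg'
      rw [h1]
      exact sg_mem M σ hg
    have hmem : ∀ u : (Matrix m m ℂ)ˣ, u ∈ G' ↔ ∀ f : MvPolynomial (m × m) ℚ,
        (∀ g ∈ M.gp, aeval (crd ((g : (Matrix m m ℂ)ˣ) : Matrix m m ℂ)) f = 0) →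
          aeval (crd (u : Matrix m m ℂ)) f = 0 := by
      intro u
      have h1 : u ∈ (G' : Set (Matrix m m ℂ)ˣ) ↔ u ∈ G' := Iff.rfl
      rw [← h1, hG']
      rfl
    have hBG : B ∈ G' := by
      rw [hmem]
      intro f hf
      have hfin := weightedHomogeneousComponent_finsupp (w := fun k : m × m => M.wt k.2) f
      rw [← sum_weightedHomogeneousComponent (fun k : m × m => M.wt k.2) f,
        finsum_eq_sum _ hfin, map_sum]
      refine Finset.sum_eq_zero fun k _ => ?_
      exact hB _ ⟨⟨k, weightedHomogeneousComponent_isWeightedHomogeneous k f⟩,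
        comp_vanish hf k hp⟩
    have hsG : p⁻¹ * sg cj p ∈ G' := by
      rw [hmem]
      intro f hf
      exact hf _ (Subgroup.mul_mem _ (Subgroup.inv_mem _ hp) (sg_mem M cj hp))
    have h1 := (hmem _).1 (G'.mul_mem hBG hsG) f fun g hg => h g hg f hf
    rw [← hs_val, ← Units.val_mul]
    exact h1
  · intro h
    exact (main_p Pool.Agent.W828.MTP.T_PT hp hdeg hinj hpi hzeta (homRel M (p : Matrix m m ℂ))
      (fun f hf => hf.1) (fun f hf => hf.2) h).1

end Pool.Agent.W516.MTF2
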